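import Mathlib

set_option autoImplicit false

namespace Pool.Agent.Results.MP_1116a9_gt.ScatteredSokolov

open Set Topology

universe u

/-- `nw(Z) ≤ ω`: the space `Z` has a countable network. -/
def HasCountableNetwork (Z : Type u) [TopologicalSpace Z] : Prop :=
  ∃ N : Set (Set Z), N.Countable ∧
    ∀ O : Set Z, IsOpen O → ∀ z ∈ O, ∃ T ∈ N, z ∈ T ∧ T ⊆ O

/-- `X` is a Sokolov space: for every sequence of closed sets `F n ⊆ X ^ n` there is a continuous
`f : X → X` such that `f(X)` has a countable network and `f ^ n` maps `F n` into `F n`. -/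
def IsSokolov (X : Type u) [TopologicalSpace X] : Prop :=
  ∀ F : (n : ℕ) → Set (Fin n → X), (∀ n, IsClosed (F n)) →
    ∃ f : X → X, Continuous f ∧ HasCountableNetwork (Set.range f) ∧
      ∀ n, ∀ x ∈ F n, (fun i => f (x i)) ∈ F n

/-- The underlying set of the `ω`-modification of `K`. -/
def OmegaModification (K : Type u) : Type u := K

/-- The topology of the `ω`-modification: it is generated by the `G_δ` subsets of `K`. -/
instance (K : Type u) [TopologicalSpace K] : TopologicalSpace (OmegaModification K) :=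
  TopologicalSpace.generateFrom {s : Set K | IsGδ s}

/-- `K` is scattered: every non-empty subspace `A` has a point isolated in `A`. -/
def IsScattered (K : Type u) [TopologicalSpace K] : Prop :=
  ∀ A : Set K, A.Nonempty → ∃ x ∈ A, ∃ U : Set K, IsOpen U ∧ U ∩ A = {x}

section Rank

variable {K : Type u}

/-- Transfinite enumeration: choose a new point outside the points already enumerated. -/
noncomputable def enum (c : Set K → K) (α : Ordinal.{u}) : K :=
  c {x | ∃ β : Ordinal.{u}, ∃ _ : β < α, enum c β = x}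
termination_by α

/-- Points enumerated before stage `α`. -/
def before (c : Set K → K) (α : Ordinal.{u}) : Set K :=
  {x | ∃ β : Ordinal.{u}, β < α ∧ enum c β = x}

lemma enum_eq (c : Set K → K) (α : Ordinal.{u}) : enum c α = c (before c α) := by
  rw [enum]
  congr 1
  ext x
  simp [before]

lemma exists_rank [TopologicalSpace K] (hK : IsScattered K) :
    ∃ ρ : K → Ordinal.{u}, Function.Injective ρ ∧ ∀ x, IsOpen {y | ρ y ≤ ρ x} := by
  classical
  rcases isEmpty_or_nonempty K with hE | hN
  · exact ⟨fun _ => 0, fun x => (hE.false x).elim, fun x => (hE.false x).elim⟩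
  have hc : ∀ O : Set K, ∃ x : K, (O ≠ univ → x ∉ O) ∧
      (O ≠ univ → IsOpen O → IsOpen (O ∪ {x})) := by
    intro O
    by_cases hO : O = univ
    · exact ⟨Classical.arbitrary K, fun h => (h hO).elim, fun h => (h hO).elim⟩
    · have hne : (Oᶜ).Nonempty := by
        rw [Set.nonempty_compl]; exact hO
      obtain ⟨x, hx, U, hU, hUx⟩ := hK Oᶜ hne
      refine ⟨x, fun _ => hx, fun _ hOo => ?_⟩
      have : O ∪ {x} = O ∪ U := by
        ext y
        constructor
        · rintro (h | h)
          · exact Or.inl h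
          · right
            have : x ∈ U ∩ Oᶜ := by rw [hUx]; rfl
            rw [Set.mem_singleton_iff] at h
            rw [h]; exact this.1
        · rintro (h | h)
          · exact Or.inl h
          · by_cases hy : y ∈ O
            · exact Or.inl hy
            · right
              rw [← hUx]; exact ⟨h, hy⟩
      rw [this]
      exact hOo.union hU
  choose c hc1 hc2 using hc
  have hex : ∃ α : Ordinal.{u}, before c α = univ := by
    by_contra hcon
    push Not at hcon
    apply not_injective_of_ordinal (enum c)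
    have key : ∀ α β : Ordinal.{u}, β < α → enum c β ≠ enum c α := by
      intro α β hβ heq
      have h1 := hc1 (before c α) (hcon α)
      apply h1
      have h2 : enum c β ∈ before c α := ⟨β, hβ, rfl⟩
      rw [heq, enum_eq c α] at h2
      exact h2
    intro α β hab
    rcases lt_trichotomy α β with h | h | h
    · exact (key _ _ h hab).elim
    · exact h
    · exact (key _ _ h hab.symm).elim
  obtain ⟨α₀, hα₀⟩ := hex
  have hopen : ∀ γ : Ordinal.{u}, (∀ β < γ, before c β ≠ univ) → IsOpen (before c γ) := by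
    intro γ
    induction γ using WellFoundedLT.induction with
    | ind γ ih =>
      intro hγ
      have : before c γ = ⋃ β : {β : Ordinal.{u} // β < γ}, (before c β.1 ∪ {enum c β.1}) := by
        ext x
        simp only [Set.mem_iUnion]
        constructor
        · rintro ⟨β, hβ, rfl⟩
          exact ⟨⟨β, hβ⟩, Or.inr rfl⟩
        · rintro ⟨⟨β, hβ⟩, h | h⟩
          · obtain ⟨δ, hδ, rfl⟩ := h
            exact ⟨δ, hδ.trans hβ, rfl⟩
          · rw [Set.mem_singleton_iff] at h
            exact ⟨β, hβ, h.symm⟩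
      rw [this]
      apply isOpen_iUnion
      rintro ⟨β, hβ⟩
      have h1 := ih β hβ (fun δ hδ => hγ δ (hδ.trans hβ))
      have h2 := hc2 (before c β) (hγ β hβ) h1
      rw [enum_eq]
      exact h2
  have hsurj : ∀ x : K, ∃ β : Ordinal.{u}, enum c β = x := by
    intro x
    have : x ∈ before c α₀ := by rw [hα₀]; trivial
    obtain ⟨β, _, h⟩ := this
    exact ⟨β, h⟩
  let ρ : K → Ordinal.{u} := fun x => sInf {β | enum c β = x}
  have hρ1 : ∀ x, enum c (ρ x) = x := fun x => csInf_mem (s := {β | enum c β = x}) (hsurj x)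
  have hρ2 : ∀ x β, enum c β = x → ρ x ≤ β := fun x β h => csInf_le' h
  refine ⟨ρ, ?_, ?_⟩
  · intro x y hxy
    rw [← hρ1 x, ← hρ1 y, hxy]
  · intro x
    have hset : {y | ρ y ≤ ρ x} = before c (ρ x) ∪ {enum c (ρ x)} := by
      ext y
      constructor
      · intro hy
        rcases lt_or_eq_of_le (show ρ y ≤ ρ x from hy) with h | h
        · exact Or.inl ⟨ρ y, h, hρ1 y⟩
        · right
          rw [Set.mem_singleton_iff, ← h, hρ1]
      · rintro (⟨β, hβ, h⟩ | h)
        · exact (hρ2 y β h).trans hβ.le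
        · rw [Set.mem_singleton_iff, hρ1] at h
          rw [h]; exact le_refl (ρ x)
    have hx : ∀ β ≤ ρ x, before c β ≠ univ := by
      intro β hβ hu
      have : x ∈ before c β := by rw [hu]; trivial
      obtain ⟨δ, hδ, h⟩ := this
      exact absurd (hρ2 x δ h) (not_le.mpr (hδ.trans_le hβ))
    rw [hset, enum_eq]
    exact hc2 _ (hx _ le_rfl) (hopen _ (fun β hβ => hx β hβ.le))

/-- In a compact space, a rank as above has a maximum on each non-empty closed set. -/
lemma exists_max [TopologicalSpace K] [CompactSpace K] (ρ : K → Ordinal.{u})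
    (hρ : ∀ x, IsOpen {y | ρ y ≤ ρ x}) (C : Set K) (hC : IsClosed C) (hne : C.Nonempty) :
    ∃ m ∈ C, ∀ y ∈ C, ρ y ≤ ρ m := by
  have hcomp : IsCompact C := hC.isCompact
  have : Nonempty C := hne.to_subtype
  obtain ⟨z, hz⟩ := hcomp.elim_directed_cover (fun x : C => {y | ρ y ≤ ρ x.1}) (fun x => hρ x.1)
    (fun y hy => Set.mem_iUnion.mpr ⟨⟨y, hy⟩, le_refl (ρ y)⟩)
    (by
      intro a b
      rcases le_total (ρ a.1) (ρ b.1) with h | h
      · exact ⟨b, fun y hy => le_trans hy h, fun y hy => hy⟩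
      · exact ⟨a, fun y hy => hy, fun y hy => le_trans hy h⟩)
  exact ⟨z.1, z.2, fun y hy => hz hy⟩

end Rank

section Main

variable {K : Type u} [TopologicalSpace K]

lemma totallyDisconnected [T2Space K] (hK : IsScattered K) : TotallyDisconnectedSpace K := by
  constructor
  intro C _ hC x hx y hy
  obtain ⟨z, hz, U, hU, hUz⟩ := hK C ⟨x, hx⟩
  -- `C = {z}` by preconnectedness
  have hCz : ∀ w ∈ C, w = z := by
    intro w hw
    by_contra hne
    have h1 : (C ∩ U).Nonempty := ⟨z, hz, by
      have : z ∈ U ∩ C := by rw [hUz]; rfl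
      exact this.1⟩
    have h2 : (C ∩ {z}ᶜ).Nonempty := ⟨w, hw, hne⟩
    have h3 : C ⊆ U ∪ {z}ᶜ := by
      intro v hv
      by_cases hvz : v = z
      · left
        have : z ∈ U ∩ C := by rw [hUz]; rfl
        rw [hvz]; exact this.1
      · exact Or.inr hvz
    obtain ⟨v, hvC, hvU, hvz⟩ := hC U {z}ᶜ hU isClosed_singleton.isOpen_compl h3 h1 h2
    have : v ∈ U ∩ C := ⟨hvU, hvC⟩
    rw [hUz] at this
    exact hvz this
  rw [hCz x hx, hCz y hy]

lemma isOpen_of_isGδ {s : Set K} (hs : IsGδ s) : @IsOpen (OmegaModification K) _ s :=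
  TopologicalSpace.isOpen_generateFrom_of_mem hs

/-- `G_δ` sets form a base of the `ω`-modification. -/
lemma exists_isGδ_subset {O : Set (OmegaModification K)} (hO : IsOpen O)
    {x : OmegaModification K} (hx : x ∈ O) : ∃ G : Set K, IsGδ G ∧ x ∈ G ∧ G ⊆ O := by
  induction hO with
  | basic s hs => exact ⟨s, hs, hx, le_rfl⟩
  | univ => exact ⟨univ, IsGδ.univ, trivial, le_rfl⟩
  | inter s t _ _ ihs iht =>
    obtain ⟨G1, h1, h2, h3⟩ := ihs hx.1
    obtain ⟨G2, h4, h5, h6⟩ := iht hx.2
    exact ⟨G1 ∩ G2, h1.inter h4, ⟨h2, h5⟩, Set.inter_subset_inter h3 h6⟩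
  | sUnion S _ ih =>
    obtain ⟨t, ht, hxt⟩ := hx
    obtain ⟨G, h1, h2, h3⟩ := ih t ht hxt
    exact ⟨G, h1, h2, h3.trans (Set.subset_sUnion_of_mem ht)⟩

/-- Countably many clopen sets witnessing a `G_δ` neighbourhood. -/
lemma exists_clopen_witness [T2Space K] [CompactSpace K] [TotallyDisconnectedSpace K]
    {G : Set K} (hG : IsGδ G) {x : K} (hx : x ∈ G) :
    ∃ W : Set (Set K), W.Countable ∧ (∀ U ∈ W, IsClopen U ∧ x ∈ U) ∧ ⋂₀ W ⊆ G := by
  obtain ⟨T, hT, hTc, rfl⟩ := hG
  have : ∀ O : T, ∃ U : Set K, IsClopen U ∧ x ∈ U ∧ U ⊆ O.1 := by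
    intro O
    exact compact_exists_isClopen_in_isOpen (hT O.1 O.2) (hx O.1 O.2)
  choose U hU1 hU2 hU3 using this
  have : Countable T := hTc.to_subtype
  refine ⟨Set.range U, Set.countable_range U, ?_, ?_⟩
  · rintro _ ⟨O, rfl⟩
    exact ⟨hU1 O, hU2 O⟩
  · intro y hy O hO
    exact hU3 ⟨O, hO⟩ (hy _ ⟨⟨O, hO⟩, rfl⟩)

/-- Countable witnesses that a point of `K ^ n` lies outside a closed subset of `X ^ n`. -/
lemma exists_witness [T2Space K] [CompactSpace K] [TotallyDisconnectedSpace K] (n : ℕ)
    (F : Set (Fin n → OmegaModification K)) (hF : IsClosed F)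
    (s : Fin n → OmegaModification K) :
    ∃ W : Set (Set K), W.Countable ∧ (∀ U ∈ W, IsClopen U) ∧
      (s ∉ F → ∀ x : Fin n → OmegaModification K, (∀ i, ∀ U ∈ W, s i ∈ U → x i ∈ U) → x ∉ F) := by
  by_cases hs : s ∈ F
  · exact ⟨∅, Set.countable_empty, fun U hU => hU.elim, fun h => (h hs).elim⟩
  · have hopen : IsOpen Fᶜ := hF.isOpen_compl
    rw [isOpen_pi_iff] at hopen
    obtain ⟨I, u, hu, hsub⟩ := hopen s hs
    have : ∀ i : Fin n, ∃ W : Set (Set K), W.Countable ∧ (∀ U ∈ W, IsClopen U ∧ s i ∈ U) ∧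
        (i ∈ I → ⋂₀ W ⊆ u i) := by
      intro i
      by_cases hi : i ∈ I
      · obtain ⟨G, hG, hsG, hGu⟩ := exists_isGδ_subset (hu i hi).1 (hu i hi).2
        obtain ⟨W, hW1, hW2, hW3⟩ := exists_clopen_witness hG hsG
        exact ⟨W, hW1, hW2, fun _ => hW3.trans hGu⟩
      · exact ⟨∅, Set.countable_empty, fun U hU => hU.elim, fun h => (hi h).elim⟩
    choose W hW1 hW2 hW3 using this
    refine ⟨⋃ i, W i, Set.countable_iUnion hW1, ?_, ?_⟩
    · intro U hU
      obtain ⟨i, hi⟩ := Set.mem_iUnion.mp hU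
      exact (hW2 i U hi).1
    · intro _ x hx
      apply hsub
      intro i hi
      apply hW3 i hi
      intro U hU
      exact hx i U (Set.mem_iUnion.mpr ⟨i, hU⟩) (hW2 i U hU).2

end Main

section Closing

variable {K : Type u}

/-- One step of the closing-off procedure. -/
def step (top : Set K → K) (W : (n : ℕ) → (Fin n → K) → Set (Set K)) (A : Set (Set K)) :
    Set (Set K) :=
  A ∪ (⋃ U ∈ A, ⋃ V ∈ A, {U \ V}) ∪
    ⋃ n : ℕ, ⋃ s ∈ {s : Fin n → K | ∀ i, s i ∈ top '' A}, W n s

/-- The iteration of the closing-off procedure. -/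
def iter (top : Set K → K) (W : (n : ℕ) → (Fin n → K) → Set (Set K)) : ℕ → Set (Set K)
  | 0 => {univ}
  | k + 1 => step top W (iter top W k)

lemma step_countable (top : Set K → K) (W : (n : ℕ) → (Fin n → K) → Set (Set K))
    (hW : ∀ n s, (W n s).Countable) {A : Set (Set K)} (hA : A.Countable) :
    (step top W A).Countable := by
  refine ((hA.union ?_)).union ?_
  · exact hA.biUnion fun U _ => hA.biUnion fun V _ => Set.countable_singleton _
  · refine Set.countable_iUnion fun n => Set.Countable.biUnion ?_ fun s _ => hW n s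
    have h1 : (top '' A).Countable := hA.image top
    have h2 := Set.countable_univ_pi (fun _ : Fin n => h1)
    refine h2.mono ?_
    intro s hs i _
    exact hs i

lemma iter_countable (top : Set K → K) (W : (n : ℕ) → (Fin n → K) → Set (Set K))
    (hW : ∀ n s, (W n s).Countable) (k : ℕ) : (iter top W k).Countable := by
  induction k with
  | zero => exact Set.countable_singleton _
  | succ k ih => exact step_countable top W hW ih

lemma iter_mono (top : Set K → K) (W : (n : ℕ) → (Fin n → K) → Set (Set K)) :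
    Monotone (iter top W) := by
  apply monotone_nat_of_le_succ
  intro k U hU
  exact Or.inl (Or.inl hU)

end Closing

/-- **Main theorem.** The `ω`-modification of every scattered compact space is a Sokolov space. -/
theorem result (K : Type u) [TopologicalSpace K] [CompactSpace K] [T2Space K]
    (hK : IsScattered K) : IsSokolov (OmegaModification K) := by
  classical
  intro F hF
  rcases isEmpty_or_nonempty K with hE | hN
  · refine ⟨id, continuous_id, ⟨∅, Set.countable_empty, fun O _ z _ => ?_⟩, fun n x hx => hx⟩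
    obtain ⟨y, _⟩ := z.2
    exact (hE.false y).elim
  have : TotallyDisconnectedSpace K := totallyDisconnected hK
  obtain ⟨ρ, hρinj, hρ⟩ := exists_rank hK
  -- the top point of a closed set
  have htop : ∀ C : Set K, ∃ m : K, IsClosed C → C.Nonempty → m ∈ C ∧ ∀ y ∈ C, ρ y ≤ ρ m := by
    intro C
    by_cases h : IsClosed C ∧ C.Nonempty
    · obtain ⟨m, hm, hm2⟩ := exists_max ρ hρ C h.1 h.2
      exact ⟨m, fun _ _ => ⟨hm, hm2⟩⟩
    · exact ⟨Classical.arbitrary K, fun h1 h2 => (h ⟨h1, h2⟩).elim⟩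
  choose top htop1 using htop
  -- the witnesses
  have hW : ∀ (n : ℕ) (s : Fin n → K), ∃ W : Set (Set K), W.Countable ∧ (∀ U ∈ W, IsClopen U) ∧
      (s ∉ F n → ∀ x : Fin n → OmegaModification K,
        (∀ i, ∀ U ∈ W, s i ∈ U → x i ∈ U) → x ∉ F n) :=
    fun n s => exists_witness n (F n) (hF n) s
  choose W hW1 hW2 hW3 using hW
  let A : Set (Set K) := ⋃ k, iter top W k
  have hAc : A.Countable := Set.countable_iUnion (iter_countable top W hW1)
  have huniv : (univ : Set K) ∈ A := Set.mem_iUnion.mpr ⟨0, rfl⟩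
  have hAclopen : ∀ U ∈ A, IsClopen U := by
    have key : ∀ k, ∀ U ∈ iter top W k, IsClopen U := by
      intro k
      induction k with
      | zero =>
        intro U hU
        rw [show U = univ from hU]
        exact isClopen_univ
      | succ k ih =>
        rintro U ((hU | hU) | hU)
        · exact ih U hU
        · simp only [Set.mem_iUnion, Set.mem_singleton_iff] at hU
          obtain ⟨V, hV, V', hV', rfl⟩ := hU
          exact (ih V hV).diff (ih V' hV')
        · simp only [Set.mem_iUnion] at hU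
          obtain ⟨n, s, _, hU⟩ := hU
          exact hW2 n s U hU
    intro U hU
    obtain ⟨k, hk⟩ := Set.mem_iUnion.mp hU
    exact key k U hk
  have hdiff : ∀ U ∈ A, ∀ V ∈ A, U \ V ∈ A := by
    intro U hU V hV
    obtain ⟨k, hk⟩ := Set.mem_iUnion.mp hU
    obtain ⟨l, hl⟩ := Set.mem_iUnion.mp hV
    refine Set.mem_iUnion.mpr ⟨max k l + 1, Or.inl (Or.inr ?_)⟩
    simp only [Set.mem_iUnion, Set.mem_singleton_iff]
    exact ⟨U, iter_mono top W (le_max_left k l) hk, V, iter_mono top W (le_max_right k l) hl, rfl⟩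
  have hwit : ∀ (n : ℕ) (s : Fin n → K), (∀ i, s i ∈ top '' A) → W n s ⊆ A := by
    intro n s hs U hU
    have : ∀ i, ∃ k, s i ∈ top '' (iter top W k) := by
      intro i
      obtain ⟨V, hV, hVs⟩ := hs i
      obtain ⟨k, hk⟩ := Set.mem_iUnion.mp hV
      exact ⟨k, V, hk, hVs⟩
    choose k hk using this
    obtain ⟨m, hm⟩ := (Set.finite_range k).bddAbove
    refine Set.mem_iUnion.mpr ⟨m + 1, Or.inr ?_⟩
    simp only [Set.mem_iUnion]
    refine ⟨n, s, fun i => ?_, hU⟩
    exact Set.image_mono (iter_mono top W (hm ⟨i, rfl⟩)) (hk i)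
  -- the retraction
  have hr : ∀ x : K, ∃ U ∈ A, x ∈ U ∧ ∀ V ∈ A, x ∈ V → ρ (top U) ≤ ρ (top V) := by
    intro x
    let T : Set Ordinal.{u} := {o | ∃ U ∈ A, x ∈ U ∧ ρ (top U) = o}
    have hT : T.Nonempty := ⟨ρ (top univ), univ, huniv, trivial, rfl⟩
    obtain ⟨U, hU, hxU, hUT⟩ := csInf_mem hT
    refine ⟨U, hU, hxU, fun V hV hxV => ?_⟩
    rw [hUT]
    exact csInf_le' ⟨V, hV, hxV, rfl⟩
  choose R hRA hxR hRmin using hr
  let r : K → K := fun x => top (R x)
  -- `r x` belongs to exactly those members of `A` which contain `x`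
  have hr1 : ∀ x, ∀ V ∈ A, r x ∈ V → x ∈ V := by
    intro x V hV hrV
    by_contra hxV
    have h1 : R x \ V ∈ A := hdiff _ (hRA x) _ hV
    have h2 : x ∈ R x \ V := ⟨hxR x, hxV⟩
    have h3 := htop1 (R x \ V) (hAclopen _ h1).1 ⟨x, h2⟩
    have h4 := htop1 (R x) (hAclopen _ (hRA x)).1 ⟨x, hxR x⟩
    have h5 := hRmin x _ h1 h2
    have h6 := h4.2 _ h3.1.1
    have h7 : top (R x) = top (R x \ V) := hρinj (le_antisymm h5 h6)
    apply h3.1.2
    rw [← h7]
    exact hrV
  -- `r` is constant on the classes of the equivalence relation given by `A`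
  have hr2 : ∀ x y, (∀ V ∈ A, x ∈ V → y ∈ V) → r y = r x := by
    intro x y hxy
    apply hρinj
    apply le_antisymm
    · exact hRmin y _ (hRA x) (hxy _ (hRA x) (hxR x))
    · apply hRmin x _ (hRA y)
      by_contra hx
      have h1 := hdiff _ huniv _ (hRA y)
      exact (hxy _ h1 ⟨trivial, hx⟩).2 (hxR y)
  have hrange : Set.range r ⊆ top '' A := by
    rintro _ ⟨x, rfl⟩
    exact ⟨R x, hRA x, rfl⟩
  have hcount : (Set.range r).Countable := (hAc.image top).mono hrange
  let r' : OmegaModification K → OmegaModification K := fun x => r x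
  refine ⟨r', ?_, ?_, ?_⟩
  · -- continuity
    refine continuous_def.mpr fun O _ => isOpen_iff_forall_mem_open.mpr fun x hx => ?_
    have hG : IsGδ (⋂₀ {V ∈ A | x ∈ V} : Set K) :=
      ⟨{V ∈ A | x ∈ V}, fun V hV => (hAclopen V hV.1).2, hAc.mono fun V hV => hV.1, rfl⟩
    refine ⟨(⋂₀ {V ∈ A | x ∈ V} : Set K), fun y hy => ?_, isOpen_of_isGδ hG, fun V hV => hV.2⟩
    have h : r' y = r' x := hr2 x y (fun V hV hxV => hy V ⟨hV, hxV⟩)
    show r' y ∈ O
    rw [h]
    exact hx
  · -- the image is countable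
    have hc : Countable (Set.range r') := hcount.to_subtype
    refine ⟨Set.range fun z : Set.range r' => ({z} : Set (Set.range r')),
      Set.countable_range _, fun O _ z hz => ⟨{z}, ⟨z, rfl⟩, rfl, ?_⟩⟩
    rintro w hw
    rw [Set.mem_singleton_iff] at hw
    rw [hw]; exact hz
  · -- invariance
    intro n x hx
    by_contra hcon
    have hs : ∀ i, r (x i) ∈ top '' A := fun i => hrange ⟨x i, rfl⟩
    have h1 := hwit n (fun i => r (x i)) hs
    exact hW3 n (fun i => r (x i)) hcon x
      (fun i U hU hrU => hr1 (x i) U (h1 hU) hrU) hx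

end Pool.Agent.Results.MP_1116a9_gt.ScatteredSokolov
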